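import Pool.Agent.W64.DM.Stm

/-!
# DM-OVL: overlaps
-/

set_option autoImplicit false

namespace Pool.Agent.W395.DM

open MeasureTheory Set Filter Pool.Agent.W64.DM

lemma nn_le (x : ℝ) (z : ℤ) : nn x ≤ |x - z| := by
  unfold nn
  exact round_le x z

theorem main (hV : S_VOL) : S_OVL := by
  intro g p p' x x' r r' hg hp hp' hcop hr hr' hlt
  set E : Set ℝ := Icc (0 : ℝ) 1 ∩ {t : ℝ | nn (x + (g * p : ℕ) * t) < r ∧
    nn (x' + (g * p' : ℕ) * t) < r'} with hE
  have hpR : (0 : ℝ) < p := by exact_mod_cast hp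
  have hpR' : (0 : ℝ) < p' := by exact_mod_cast hp'
  have hmin : 0 < min (r / p) (r' / p') := lt_min (by positivity) (by positivity)
  rcases E.eq_empty_or_nonempty with h0 | ⟨t0, ht0⟩
  · rw [h0, measure_empty, ENNReal.toReal_zero]
    split_ifs
    · positivity
    · exact le_refl _
  obtain ⟨-, h1, h1'⟩ := ht0
  push_cast at h1 h1'
  set z : ℤ := round (x + (g : ℝ) * p * t0) with hz
  set z' : ℤ := round (x' + (g : ℝ) * p' * t0) with hz'
  have h2 : |x + (g : ℝ) * p * t0 - z| < r := h1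
  have h2' : |x' + (g : ℝ) * p' * t0 - z'| < r' := h1'
  have hif : nn (p' * x - p * x') < p' * r + p * r' := by
    refine lt_of_le_of_lt (nn_le _ ((p' : ℤ) * z - (p : ℤ) * z')) ?_
    have e : (p' : ℝ) * x - p * x' - (((p' : ℤ) * z - (p : ℤ) * z' : ℤ) : ℝ) =
        p' * (x + (g : ℝ) * p * t0 - z) - p * (x' + (g : ℝ) * p' * t0 - z') := by
      push_cast
      ring
    rw [e]
    refine lt_of_le_of_lt (abs_sub _ _) ?_
    rw [abs_mul, abs_mul, abs_of_pos hpR, abs_of_pos hpR']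
    exact add_lt_add (mul_lt_mul_of_pos_left h2 hpR') (mul_lt_mul_of_pos_left h2' hpR)
  rw [if_pos hif]
  set ρ : ℝ := 2 * min (r / p) (r' / p') with hρ
  have hρ0 : 0 < ρ := by positivity
  have hsub : E ⊆ Icc (0 : ℝ) 1 ∩ {t : ℝ | nn (-(g * t0) + g * t) < ρ} := by
    rintro t ⟨htI, ht1, ht1'⟩
    refine ⟨htI, ?_⟩
    push_cast at ht1 ht1'
    set w : ℤ := round (x + (g : ℝ) * p * t) with hw
    set w' : ℤ := round (x' + (g : ℝ) * p' * t) with hw'
    have h3 : |x + (g : ℝ) * p * t - w| < r := ht1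
    have h3' : |x' + (g : ℝ) * p' * t - w'| < r' := ht1'
    have h4 : |(g : ℝ) * p * (t - t0) - ((w - z : ℤ) : ℝ)| < 2 * r := by
      have e : (g : ℝ) * p * (t - t0) - ((w - z : ℤ) : ℝ) =
          (x + (g : ℝ) * p * t - w) - (x + (g : ℝ) * p * t0 - z) := by
        push_cast; ring
      rw [e]
      refine lt_of_le_of_lt (abs_sub _ _) ?_
      linarith
    have h4' : |(g : ℝ) * p' * (t - t0) - ((w' - z' : ℤ) : ℝ)| < 2 * r' := by
      have e : (g : ℝ) * p' * (t - t0) - ((w' - z' : ℤ) : ℝ) =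
          (x' + (g : ℝ) * p' * t - w') - (x' + (g : ℝ) * p' * t0 - z') := by
        push_cast; ring
      rw [e]
      refine lt_of_le_of_lt (abs_sub _ _) ?_
      linarith
    have h5 : |(((p' : ℤ) * (w - z) - (p : ℤ) * (w' - z') : ℤ) : ℝ)| < 1 := by
      have e : (((p' : ℤ) * (w - z) - (p : ℤ) * (w' - z') : ℤ) : ℝ) =
          p * ((g : ℝ) * p' * (t - t0) - ((w' - z' : ℤ) : ℝ)) -
            p' * ((g : ℝ) * p * (t - t0) - ((w - z : ℤ) : ℝ)) := by
        push_cast; ring
      rw [e]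
      refine lt_of_le_of_lt (abs_sub _ _) ?_
      rw [abs_mul, abs_mul, abs_of_pos hpR, abs_of_pos hpR']
      have a1 := mul_lt_mul_of_pos_left h4 hpR'
      have a2 := mul_lt_mul_of_pos_left h4' hpR
      linarith
    have h6 : (p' : ℤ) * (w - z) - (p : ℤ) * (w' - z') = 0 := by
      rw [← Int.cast_abs] at h5
      have : |(p' : ℤ) * (w - z) - (p : ℤ) * (w' - z')| < 1 := by exact_mod_cast h5
      exact Int.abs_lt_one_iff.1 this
    have h7 : (p' : ℤ) * (w - z) = (p : ℤ) * (w' - z') := by linarith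
    have hco : IsCoprime (p : ℤ) (p' : ℤ) := Nat.isCoprime_iff_coprime.2 hcop
    have hdvd : (p : ℤ) ∣ w - z := by
      refine hco.dvd_of_dvd_mul_left ?_
      rw [h7]
      exact dvd_mul_right _ _
    obtain ⟨Y, hY⟩ := hdvd
    have hY' : w' - z' = p' * Y := by
      rw [hY] at h7
      have hp0 : (p : ℤ) ≠ 0 := by exact_mod_cast (show p ≠ 0 by omega)
      have : (p : ℤ) * (w' - z') = p * (p' * Y) := by rw [← h7]; ring
      exact mul_left_cancel₀ hp0 this
    have h8 : |(g : ℝ) * (t - t0) - Y| < 2 * (r / p) := by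
      rw [hY] at h4
      have e : (g : ℝ) * p * (t - t0) - (((p : ℤ) * Y : ℤ) : ℝ) = p * ((g : ℝ) * (t - t0) - Y) := by
        push_cast; ring
      rw [e, abs_mul, abs_of_pos hpR] at h4
      rw [show 2 * (r / p) = (2 * r) / (p : ℝ) by ring, lt_div_iff₀ hpR]
      linarith
    have h8' : |(g : ℝ) * (t - t0) - Y| < 2 * (r' / p') := by
      rw [hY'] at h4'
      have e : (g : ℝ) * p' * (t - t0) - (((p' : ℤ) * Y : ℤ) : ℝ) =
          p' * ((g : ℝ) * (t - t0) - Y) := by
        push_cast; ring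
      rw [e, abs_mul, abs_of_pos hpR'] at h4'
      rw [show 2 * (r' / p') = (2 * r') / (p' : ℝ) by ring, lt_div_iff₀ hpR']
      linarith
    have e : -((g : ℝ) * t0) + g * t = g * (t - t0) := by ring
    show nn (-((g : ℝ) * t0) + g * t) < ρ
    rw [e]
    refine lt_of_le_of_lt (nn_le _ Y) ?_
    rw [hρ]
    rcases min_choice (r / p) (r' / p') with h | h
    · rw [h]; exact h8
    · rw [h]; exact h8'
  have hfin : volume (Icc (0 : ℝ) 1) ≠ ⊤ := by simp
  have hle1 : (volume E).toReal ≤ 1 := by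
    have h : (volume E).toReal ≤ (volume (Icc (0 : ℝ) 1)).toReal :=
      ENNReal.toReal_mono hfin (measure_mono (hE ▸ inter_subset_left))
    simpa using h
  rcases le_or_gt ρ (1 / 2) with hc | hc
  · have h := hV g (-(g * t0)) ρ hg hρ0.le hc
    have h' : (volume E).toReal ≤
        (volume (Icc (0 : ℝ) 1 ∩ {t : ℝ | nn (-(g * t0) + g * t) < ρ})).toReal :=
      ENNReal.toReal_mono (ne_top_of_le_ne_top hfin (measure_mono inter_subset_left))
        (measure_mono hsub)
    rw [h] at h'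
    calc (volume E).toReal ≤ 2 * ρ := h'
      _ = 4 * min (r / p) (r' / p') := by rw [hρ]; ring
  · have : 4 * min (r / p) (r' / p') = 2 * ρ := by rw [hρ]; ring
    rw [this]
    linarith

end Pool.Agent.W395.DM
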